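import Pool.Agent.W68.GapMain

/-!
# Exact prime patterns of multipliers

For a multiplier `A ≡ 1 (mod v)` let `M_A(y) = A y + (A - 1) / v * u`, so that `M_A(y) + u / v = A (y + u / v)` and
`M_A M_B = M_{A B}`.
-/

set_option autoImplicit false

namespace Pool.Agent.J6H10.MU

open Pool.Agent.H752R3.MT Pool.Agent.W68.Mil Pool.Agent.W68.Her

/-- composition of an exact pattern with `x ↦ A x + B` -/
theorem exF_comp {E : Set (ℤ × ℤ)} (hE : ExF E) (A B : ℤ) (hA : 1 ≤ A) :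
    ExF {g | (g.1 * A, g.2 + g.1 * B) ∈ E} := by
  classical
  intro T hT
  have h1 := hE (T.image fun g => (g.1 * A, g.2 + g.1 * B)) (by
    intro f hf
    obtain ⟨g, hg, rfl⟩ := Finset.mem_image.1 hf
    have := hT g hg
    simp only
    nlinarith)
  set S := {n : ℕ | ∀ f ∈ T.image fun g => (g.1 * A, g.2 + g.1 * B),
    (Nat.Prime (f.1 * n + f.2).toNat ↔ f ∈ E)} with hS
  have h3 : (S \ Set.Iio B.natAbs).Infinite := h1.sdiff (Set.finite_Iio _)
  have hpos : ∀ m : ℕ, B.natAbs ≤ m → (((A * (m : ℤ) + B).toNat : ℕ) : ℤ) = A * m + B := by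
    intro m hm
    apply Int.toNat_of_nonneg
    have h4 : (B.natAbs : ℤ) ≤ m := by exact_mod_cast hm
    rw [Int.natCast_natAbs] at h4
    have h5 := neg_abs_le B
    have h6 : (0 : ℤ) ≤ m := Int.natCast_nonneg m
    nlinarith
  have hinj : Set.InjOn (fun m : ℕ => (A * (m : ℤ) + B).toNat) (S \ Set.Iio B.natAbs) := by
    intro m hm m' hm' hmm'
    have e1 := hpos m (not_lt.1 hm.2)
    have e2 := hpos m' (not_lt.1 hm'.2)
    simp only at hmm'
    rw [hmm', e2] at e1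
    have h7 : A * (m' : ℤ) = A * m := by linarith
    have h8 := mul_left_cancel₀ (show A ≠ 0 by omega) h7
    exact_mod_cast h8.symm
  refine (h3.image hinj).mono ?_
  rintro _ ⟨m, ⟨hm, hm2⟩, rfl⟩ g hg
  have e1 := hpos m (not_lt.1 hm2)
  have h5 := hm (g.1 * A, g.2 + g.1 * B) (Finset.mem_image_of_mem _ hg)
  simp only at h5 ⊢
  rw [e1]
  have e2 : g.1 * (A * (m : ℤ) + B) + g.2 = g.1 * A * m + (g.2 + g.1 * B) := by ring
  rw [e2, h5]
  rfl

/-- block products congruent to one -/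
theorem exists_one (e : ℕ → ℕ) (w : ℕ) (hw : 1 ≤ w) (he : ∀ i, (e i).Coprime w) (X : ℕ → Finset ℕ)
    (hX : Blk X) : ∃ Y, Blk Y ∧ Le Y X ∧ ∀ i, ((∏ a ∈ Y i, e a : ℕ) : ZMod w) = 1 := by
  classical
  have : NeZero w := ⟨by omega⟩
  obtain ⟨F, h1, h2, c, hc⟩ := Tau555.finite_unions (κ := ZMod w)
    (fun I => ((∏ a ∈ I.biUnion X, e a : ℕ) : ZMod w))
  have hF : Blk F := ⟨h1, h2⟩
  have hY : Blk (fun i => (F i).biUnion X) := hF.comp hX
  have hval : ∀ i, ((∏ a ∈ (F i).biUnion X, e a : ℕ) : ZMod w) = c := by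
    intro i
    have := hc {i} (Finset.singleton_nonempty i)
    rwa [Finset.singleton_biUnion] at this
  have hdisj : Disjoint ((F 0).biUnion X) ((F 1).biUnion X) := by
    rw [Finset.disjoint_left]
    intro a ha hb
    exact absurd (hY.lt (Nat.lt_succ_self 0) a ha a hb) (lt_irrefl a)
  have h01 := hc {0, 1} ⟨0, by simp⟩
  rw [show (({0, 1} : Finset ℕ).biUnion F).biUnion X =
    (F 0).biUnion X ∪ (F 1).biUnion X by
      rw [Finset.biUnion_biUnion, Finset.biUnion_insert, Finset.singleton_biUnion],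
    Finset.prod_union hdisj, Nat.cast_mul, hval 0, hval 1] at h01
  have hunit : IsUnit c := by
    rw [← hval 0, ZMod.isUnit_iff_coprime]
    exact Nat.Coprime.prod_left fun i _ => he i
  have hc1 : c = 1 := by
    have h3 : c * c = c * 1 := by rw [h01, mul_one]
    exact hunit.mul_left_cancel h3
  refine ⟨_, hY, fun i => ⟨F i, h1 i, rfl⟩, fun i => ?_⟩
  have := hval i
  rw [hc1] at this
  exact this

/-- the linear form `x ↦ M_A (q x + r)` -/
def form (u : ℤ) (v q : ℕ) (r : ℤ) (A : ℕ) : ℤ × ℤ :=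
  ((A : ℤ) * q, A * r + ((A : ℤ) - 1) / v * u)

/-- partial products over the blocks -/
def prd (e : ℕ → ℕ) (C : ℕ → Finset ℕ) (m : ℕ) : ℕ := ∏ l ∈ Finset.range m, ∏ a ∈ C l, e a

theorem prd_succ (e : ℕ → ℕ) (C : ℕ → Finset ℕ) (m : ℕ) :
    prd e C (m + 1) = prd e C m * ∏ a ∈ C m, e a := by
  unfold prd
  rw [Finset.prod_range_succ]

theorem two_le_prod {e : ℕ → ℕ} (he : ∀ a, 2 ≤ e a) {A : Finset ℕ} (hA : A.Nonempty) :
    2 ≤ ∏ a ∈ A, e a := by
  obtain ⟨a, ha⟩ := hA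
  have h1 : e a ≤ ∏ a ∈ A, e a :=
    Finset.single_le_prod' (f := e) (fun i _ => le_trans (by norm_num) (he i)) ha
  exact le_trans (he a) h1

theorem prd_pos {e : ℕ → ℕ} (he : ∀ a, 2 ≤ e a) (C : ℕ → Finset ℕ) (m : ℕ) : 0 < prd e C m :=
  Finset.prod_pos fun l _ => Finset.prod_pos fun a _ => by have := he a; omega

theorem prd_strictMono {e : ℕ → ℕ} (he : ∀ a, 2 ≤ e a) {C : ℕ → Finset ℕ} (hC : Blk C) :
    StrictMono (prd e C) := strictMono_nat_of_lt_succ fun m => by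
  rw [prd_succ]
  have h1 := two_le_prod he (hC.1 m)
  have h2 := prd_pos he C m
  nlinarith

/-- the primitive forms -/
theorem form_coprime (u : ℤ) (v q : ℕ) (hv : 1 ≤ v) (r : ℤ) (hr : IsCoprime r (q : ℤ)) (A : ℕ)
    (hA : ((A : ℕ) : ZMod (q * v)) = 1) (hAu : IsCoprime (A : ℤ) u) :
    ∃ B : ℤ, (A : ℤ) = 1 + v * (q * B) ∧ form u v q r A = ((A : ℤ) * q, A * r + q * B * u) ∧
      IsCoprime (form u v q r A).1 (form u v q r A).2 := by
  have h1 : ((q * v : ℕ) : ℤ) ∣ (A : ℤ) - 1 := by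
    rw [← ZMod.intCast_zmod_eq_zero_iff_dvd]
    push_cast
    rw [hA, sub_self]
  obtain ⟨B, hB⟩ := h1
  push_cast at hB
  have hB1 : (A : ℤ) = 1 + v * (q * B) := by linarith
  have hv0 : (v : ℤ) ≠ 0 := by
    have : v ≠ 0 := by omega
    exact_mod_cast this
  have hdiv : ((A : ℤ) - 1) / v = q * B := by
    rw [hB1, show (1 + (v : ℤ) * (q * B) - 1) = v * (q * B) by ring]
    exact Int.mul_ediv_cancel_left _ hv0
  have hform : form u v q r A = ((A : ℤ) * q, A * r + q * B * u) := by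
    unfold form
    rw [hdiv]
  refine ⟨B, hB1, hform, ?_⟩
  rw [hform]
  simp only
  refine IsCoprime.mul_left ?_ ?_
  · refine (IsCoprime.mul_add_left_right_iff).2 ?_
    refine IsCoprime.mul_right ?_ hAu
    refine ⟨1, -v, ?_⟩
    rw [hB1]
    ring
  · have h2 : (A : ℤ) * r + q * B * u = r + q * (v * B * r + B * u) := by
      rw [hB1]
      ring
    rw [h2]
    exact (IsCoprime.add_mul_left_right_iff).2 hr.symm

end Pool.Agent.J6H10.MU
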