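import Pool.Agent.J6H10.MU.Base

/-!
# Existence of exact patterns of multipliers
-/

set_option autoImplicit false

namespace Pool.Agent.J6H10.MU

open Pool.Agent.H752R3.MT Pool.Agent.W68.Mil Pool.Agent.W68.Her

/-- hypotheses on a system of multipliers -/
structure Ok (u : ℤ) (v q : ℕ) (r : ℤ) (e : ℕ → ℕ) : Prop where
  hv : 1 ≤ v
  hq : 1 ≤ q
  hr : IsCoprime r (q : ℤ)
  two : ∀ a, 2 ≤ e a
  cop : ∀ a, (e a).Coprime (q * v)
  copu : ∀ a, IsCoprime (e a : ℤ) u

theorem Ok.copu_prod {u : ℤ} {v q : ℕ} {r : ℤ} {e : ℕ → ℕ} (h : Ok u v q r e) (A : Finset ℕ) :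
    IsCoprime ((∏ a ∈ A, e a : ℕ) : ℤ) u := by
  rw [Nat.cast_prod]
  exact IsCoprime.prod_left fun a _ => h.copu a

theorem Ok.copu_prd {u : ℤ} {v q : ℕ} {r : ℤ} {e : ℕ → ℕ} (h : Ok u v q r e) (C : ℕ → Finset ℕ)
    (m : ℕ) : IsCoprime ((prd e C m : ℕ) : ℤ) u := by
  unfold prd
  rw [Nat.cast_prod]
  exact IsCoprime.prod_left fun l _ => h.copu_prod _

theorem prd_one {e : ℕ → ℕ} {w : ℕ} {C : ℕ → Finset ℕ} (hC : ∀ i, ((∏ a ∈ C i, e a : ℕ) : ZMod w) = 1)
    (m : ℕ) : ((prd e C m : ℕ) : ZMod w) = 1 := by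
  unfold prd
  rw [Nat.cast_prod]
  exact Finset.prod_eq_one fun l _ => hC l

theorem good_exists {u : ℤ} {v q : ℕ} {r : ℤ} {e : ℕ → ℕ} (h : Ok u v q r e)
    (X : ℕ → Finset ℕ) (hX : Blk X) :
    ∃ Y, Blk Y ∧ Le Y X ∧ (∀ i, ((∏ a ∈ Y i, e a : ℕ) : ZMod (q * v)) = 1) ∧
      ExF (Set.range fun m => form u v q r (prd e Y m)) := by
  classical
  obtain ⟨V, hV, hVX, hV1⟩ := exists_one e (q * v) (Nat.mul_pos h.hq h.hv) h.cop X hX
  have hq0 : (1 : ℤ) ≤ q := by exact_mod_cast h.hq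
  have hmono := prd_strictMono h.two hV
  have hpos : ∀ m, (1 : ℤ) ≤ prd e V m := fun m => by
    have := prd_pos h.two V m
    exact_mod_cast this
  have hfc := fun m => form_coprime u v q h.hv r h.hr (prd e V m) (prd_one hV1 m) (h.copu_prd V m)
  choose B hB1 hB2 hB3 using hfc
  set F : ℕ → ℤ × ℤ := fun m => form u v q r (prd e V m) with hF
  have hF1 : ∀ m, (F m).1 = (prd e V m : ℤ) * q := fun m => rfl
  have hFinj : Function.Injective F := by
    intro m m' hmm
    have h1 := (Prod.ext_iff.1 hmm).1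
    rw [hF1, hF1] at h1
    have h2 := mul_right_cancel₀ (show (q : ℤ) ≠ 0 by omega) h1
    exact hmono.injective (by exact_mod_cast h2)
  obtain ⟨G, hG1, hG2, hG3⟩ := Pool.Agent.H361R2.Inf.exact_infinite (Set.range F)
    (Set.infinite_range_of_injective hFinj) (by
      rintro _ ⟨m, rfl⟩
      refine ⟨?_, hB3 m⟩
      rw [hF1]
      have := hpos m
      nlinarith)
  set M : Set ℕ := F ⁻¹' G with hM
  have hMG : F '' M = G := by
    ext f
    constructor
    · rintro ⟨m, hm, rfl⟩; exact hm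
    · intro hf
      obtain ⟨m, rfl⟩ := hG1 hf
      exact ⟨m, hf, rfl⟩
  have hMi : M.Infinite := by
    intro h'
    apply hG2
    rw [← hMG]
    exact h'.image F
  set μ : ℕ → ℕ := Nat.nth (· ∈ M) with hμ
  have hμm : StrictMono μ := Nat.nth_strictMono hMi
  have hμr : Set.range μ = M := Nat.range_nth_of_infinite hMi
  set Y : ℕ → Finset ℕ := fun l => (Finset.Ico (μ l) (μ (l + 1))).biUnion V with hY
  have hIco : ∀ l, (Finset.Ico (μ l) (μ (l + 1))).Nonempty := fun l =>
    Finset.nonempty_Ico.2 (hμm (Nat.lt_succ_self l))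
  have hBlkI : Blk (fun l => Finset.Ico (μ l) (μ (l + 1))) := by
    refine ⟨hIco, fun i x hx y hy => ?_⟩
    rw [Finset.mem_Ico] at hx hy
    omega
  have hYB : Blk Y := hBlkI.comp hV
  have hdisj : ∀ i j, i ≠ j → Disjoint (V i) (V j) := by
    intro i j hij
    rw [Finset.disjoint_left]
    intro a ha hb
    rcases Nat.lt_or_gt_of_ne hij with h' | h'
    · exact absurd (hV.lt h' a ha a hb) (lt_irrefl a)
    · exact absurd (hV.lt h' a hb a ha) (lt_irrefl a)
  have hYprod : ∀ l, ∏ a ∈ Y l, e a = ∏ i ∈ Finset.Ico (μ l) (μ (l + 1)), ∏ a ∈ V i, e a := by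
    intro l
    simp only [hY]
    exact Finset.prod_biUnion (fun i _ j _ hij => hdisj i j hij)
  have hY1 : ∀ l, ((∏ a ∈ Y l, e a : ℕ) : ZMod (q * v)) = 1 := by
    intro l
    rw [hYprod, Nat.cast_prod]
    exact Finset.prod_eq_one fun i _ => hV1 i
  have hYmul : ∀ l, prd e V (μ l) * ∏ a ∈ Y l, e a = prd e V (μ (l + 1)) := by
    intro l
    rw [hYprod]
    unfold prd
    exact Finset.prod_range_mul_prod_Ico _ (hμm (Nat.lt_succ_self l)).le
  have hprd : ∀ m, prd e Y m * prd e V (μ 0) = prd e V (μ m) := by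
    intro m
    induction m with
    | zero => simp [prd]
    | succ m ih =>
      rw [prd_succ, ← hYmul m, ← ih]
      ring
  refine ⟨Y, hYB, fun l => FU_mono hVX ⟨_, hIco l, rfl⟩, hY1, ?_⟩
  set A : ℕ := prd e V (μ 0) with hA
  have hA1 : (1 : ℤ) ≤ A := hpos _
  have h1 := exF_comp hG3 (A : ℤ) (B (μ 0) * (v * r + u)) hA1
  have hfY := fun m => form_coprime u v q h.hv r h.hr (prd e Y m) (prd_one hY1 m) (h.copu_prd Y m)
  choose B' hB1' hB2' hB3' using hfY
  -- the forms correspond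
  have hv0 : (v : ℤ) ≠ 0 := by
    have := h.hv
    have : v ≠ 0 := by omega
    exact_mod_cast this
  have hcorr : ∀ m, ((form u v q r (prd e Y m)).1 * (A : ℤ),
      (form u v q r (prd e Y m)).2 + (form u v q r (prd e Y m)).1 * (B (μ 0) * (v * r + u))) = F (μ m) := by
    intro m
    have e1 : ((prd e V (μ m) : ℕ) : ℤ) = prd e Y m * A := by
      rw [← hprd m]
      push_cast
      rfl
    have e2 := hB1 (μ m)
    have e3 := hB1 (μ 0)
    have e4 := hB1' m
    rw [← hA] at e3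
    -- `B (μ m)` in terms of the others
    have e5 : (q : ℤ) * B (μ m) = q * B' m + (prd e Y m : ℤ) * (q * B (μ 0)) := by
      have h6 : (v : ℤ) * (q * B (μ m)) = v * (q * B' m + (prd e Y m : ℤ) * (q * B (μ 0))) := by
        have h7 : (v : ℤ) * (q * B (μ m)) = prd e Y m * A - 1 := by rw [← e1, e2]; ring
        rw [h7, e3]
        have h8 : (v : ℤ) * (q * B' m) = prd e Y m - 1 := by rw [e4]; ring
        calc (prd e Y m : ℤ) * (1 + v * (q * B (μ 0))) - 1
            = (prd e Y m - 1) + prd e Y m * (v * (q * B (μ 0))) := by ring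
          _ = v * (q * B' m) + prd e Y m * (v * (q * B (μ 0))) := by rw [h8]
          _ = _ := by ring
      exact mul_left_cancel₀ hv0 h6
    show _ = form u v q r (prd e V (μ m))
    rw [hB2' m, hB2 (μ m)]
    ext
    · simp only
      rw [e1]
      ring
    · simp only
      have h9 : (prd e V (μ m) : ℤ) * r + q * B (μ m) * u =
          prd e Y m * A * r + (q * B' m + prd e Y m * (q * B (μ 0))) * u := by rw [e1, e5]
      rw [h9, e3]
      ring
  have hset : (Set.range fun m => form u v q r (prd e Y m)) =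
      {g | (g.1 * (A : ℤ), g.2 + g.1 * (B (μ 0) * (v * r + u))) ∈ G} := by
    ext g
    simp only [Set.mem_range, Set.mem_ofPred_eq]
    constructor
    · rintro ⟨m, rfl⟩
      rw [hcorr m]
      have : μ m ∈ M := hμr ▸ Set.mem_range_self m
      exact this
    · intro hg
      have hg' : (g.1 * (A : ℤ), g.2 + g.1 * (B (μ 0) * (v * r + u))) ∈ F '' M := by
        rw [hMG]; exact hg
      obtain ⟨m', hm', he⟩ := hg'
      rw [← hμr] at hm'
      obtain ⟨m, rfl⟩ := hm'
      refine ⟨m, ?_⟩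
      rw [← hcorr m] at he
      have h2 := (Prod.ext_iff.1 he).1
      have h3 := (Prod.ext_iff.1 he).2
      simp only at h2 h3
      have h4 : (form u v q r (prd e Y m)).1 = g.1 := mul_right_cancel₀ (show (A : ℤ) ≠ 0 by omega) h2
      rw [h4] at h3
      exact Prod.ext h4 (by linarith)
  rw [hset]
  exact h1

end Pool.Agent.J6H10.MU
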