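import Pool.Agent.J6H10.MU.Exist
import Pool.Agent.J6H10.PR.Closed

/-!
# Systems of multipliers chosen freely from partition regular families
-/

set_option autoImplicit false

namespace Pool.Agent.J6H10.MU

open Pool.Agent.H752R3.MT Pool.Agent.W68.Mil Pool.Agent.W68.Her

variable {G : Type}

theorem hom_sum [AddCommMonoid G] {φ : G → ℕ} (h0 : φ 0 = 1) (h1 : ∀ x y, φ (x + y) = φ x * φ y) {ι : Type}
    (s : Finset ι) (f : ι → G) : φ (∑ i ∈ s, f i) = ∏ i ∈ s, φ (f i) := by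
  classical
  induction s using Finset.induction_on with
  | empty => simp [h0]
  | insert a s ha ih => rw [Finset.sum_insert ha, Finset.prod_insert ha, h1, ih]

/-- partial products -/
def pp (φ : G → ℕ) (Z : ℕ → G) (m : ℕ) : ℕ := ∏ l ∈ Finset.range m, φ (Z l)

theorem pp_succ (φ : G → ℕ) (Z : ℕ → G) (m : ℕ) : pp φ Z (m + 1) = pp φ Z m * φ (Z m) := by
  unfold pp
  rw [Finset.prod_range_succ]

theorem lt_pp {φ : G → ℕ} {Z : ℕ → G} (hZ : ∀ i, 2 ≤ φ (Z i)) (m : ℕ) : m < pp φ Z m := by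
  induction m with
  | zero => simp [pp]
  | succ m ih =>
    rw [pp_succ]
    have := hZ m
    nlinarith

theorem pp_mono {φ : G → ℕ} {Z : ℕ → G} (hZ : ∀ i, 2 ≤ φ (Z i)) : StrictMono (pp φ Z) :=
  strictMono_nat_of_lt_succ fun m => by
    rw [pp_succ]
    have h1 := hZ m
    have h2 := lt_pp hZ m
    nlinarith

/-- the exact patterns attached to sequences -/
def goodM (φ : G → ℕ) (u : ℤ) (v q : ℕ) (r : ℤ) (Z : ℕ → G) : Prop :=
  ExF (Set.range fun m => form u v q r (pp φ Z m))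

theorem goodM_closed {T : Set G} {φ : G → ℕ} (hφ : ∀ x ∈ T, 2 ≤ φ x) (u : ℤ) (v q : ℕ) (hq : 1 ≤ q)
    (r : ℤ) (Z : ℕ → G) (hZ : ∀ i, Z i ∈ T) (hg : ¬ goodM φ u v q r Z) :
    ∃ m, ∀ Z' : ℕ → G, (∀ i, Z' i ∈ T) → (∀ i < m, Z' i = Z i) → ¬ goodM φ u v q r Z' := by
  unfold goodM ExF at hg
  push Not at hg
  obtain ⟨S, hT1, hT2⟩ := hg
  obtain ⟨M, hM⟩ : ∃ M : ℕ, ∀ f ∈ S, f.1 < M := by
    refine ⟨(S.sup fun f => (f.1).toNat) + 1, fun f hf => ?_⟩
    have h1 : (f.1).toNat ≤ S.sup fun f => (f.1).toNat :=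
      Finset.le_sup (f := fun f : ℤ × ℤ => (f.1).toNat) hf
    have h2 := Int.self_le_toNat (f.1)
    have h3 : ((f.1).toNat : ℤ) ≤ ((S.sup fun f => (f.1).toNat : ℕ) : ℤ) := by
      exact_mod_cast h1
    push_cast
    linarith
  refine ⟨M, fun Z' hZ' hZZ hg' => ?_⟩
  have hp : ∀ m ≤ M, pp φ Z' m = pp φ Z m := by
    intro m hm
    unfold pp
    refine Finset.prod_congr rfl fun l hl => ?_
    rw [hZZ l (by have := Finset.mem_range.1 hl; omega)]
  have hZ1 : ∀ i, 2 ≤ φ (Z i) := fun i => hφ _ (hZ i)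
  have hZ1' : ∀ i, 2 ≤ φ (Z' i) := fun i => hφ _ (hZ' i)
  have hq0 : (1 : ℤ) ≤ q := by exact_mod_cast hq
  have key : ∀ (W : ℕ → G), (∀ i, 2 ≤ φ (W i)) → ∀ m, (form u v q r (pp φ W m)).1 < M → m ≤ M := by
    intro W hW m hm
    have h1 : (m : ℤ) < pp φ W m := by exact_mod_cast lt_pp hW m
    have h2 : (form u v q r (pp φ W m)).1 = (pp φ W m : ℤ) * q := rfl
    rw [h2] at hm
    have h3 : (pp φ W m : ℤ) ≤ pp φ W m * q := by nlinarith
    have : (m : ℤ) < M := by linarith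
    exact_mod_cast this.le
  refine (congr_inf (fun f hf => ?_) (hg' S hT1)) hT2
  constructor
  · rintro ⟨m, rfl⟩
    refine ⟨m, ?_⟩
    have h1 := key Z' hZ1' m (hM _ hf)
    simp only
    rw [hp m h1]
  · rintro ⟨m, rfl⟩
    refine ⟨m, ?_⟩
    have h1 := key Z hZ1 m (hM _ hf)
    simp only
    rw [hp m h1]

/-- from exactness to the statement on primes -/
theorem window {φ : G → ℕ} {u : ℤ} {v q : ℕ} (hq : 1 ≤ q) {r : ℤ} {Z : ℕ → G}
    (hZ : ∀ i, 2 ≤ φ (Z i)) (hg : goodM φ u v q r Z) (k : ℕ) (U : Finset (ℤ × ℤ))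
    (hU : ∀ g ∈ U, 1 ≤ g.1) (hbig : ∀ g ∈ U, g.1 < pp φ Z (k + 1)) :
    {n : ℕ | (n : ℤ) ≡ r [ZMOD q] ∧
      (∀ m ≤ k, Nat.Prime ((pp φ Z m : ℤ) * n + ((pp φ Z m : ℤ) - 1) / v * u).toNat) ∧
      ∀ g ∈ U, Nat.Prime (g.1 * n + g.2).toNat →
        ∃ m ≤ k, g = ((pp φ Z m : ℤ), ((pp φ Z m : ℤ) - 1) / v * u)}.Infinite := by
  classical
  have hq0 : (1 : ℤ) ≤ q := by exact_mod_cast hq
  have h1 := hg (U.image (fun g => (g.1 * q, g.2 + g.1 * r)) ∪
    (Finset.range (k + 1)).image fun m => form u v q r (pp φ Z m)) (by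
      intro f hf
      rcases Finset.mem_union.1 hf with hf | hf
      · obtain ⟨g, hg, rfl⟩ := Finset.mem_image.1 hf
        have := hU g hg
        simp only
        nlinarith
      · obtain ⟨m, -, rfl⟩ := Finset.mem_image.1 hf
        have h1 : (m : ℤ) < pp φ Z m := by exact_mod_cast lt_pp hZ m
        show (1 : ℤ) ≤ (pp φ Z m : ℤ) * q
        nlinarith [Int.natCast_nonneg m])
  set S := {n : ℕ | ∀ f ∈ U.image (fun g => (g.1 * (q : ℤ), g.2 + g.1 * r)) ∪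
    (Finset.range (k + 1)).image fun m => form u v q r (pp φ Z m),
    (Nat.Prime (f.1 * n + f.2).toNat ↔ f ∈ Set.range fun m => form u v q r (pp φ Z m))} with hS
  have h3 : (S \ Set.Iio r.natAbs).Infinite := h1.sdiff (Set.finite_Iio _)
  have hpos : ∀ m : ℕ, r.natAbs ≤ m → (((q * (m : ℤ) + r).toNat : ℕ) : ℤ) = q * m + r := by
    intro m hm
    apply Int.toNat_of_nonneg
    have h4 : (r.natAbs : ℤ) ≤ m := by exact_mod_cast hm
    rw [Int.natCast_natAbs] at h4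
    have h5 := neg_abs_le r
    have h6 : (0 : ℤ) ≤ m := Int.natCast_nonneg m
    nlinarith
  have hinj : Set.InjOn (fun m : ℕ => (q * (m : ℤ) + r).toNat) (S \ Set.Iio r.natAbs) := by
    intro m hm m' hm' hmm'
    have e1 := hpos m (not_lt.1 hm.2)
    have e2 := hpos m' (not_lt.1 hm'.2)
    simp only at hmm'
    rw [hmm', e2] at e1
    have h7 : (q : ℤ) * (m' : ℤ) = q * m := by linarith
    have h8 := mul_left_cancel₀ (show (q : ℤ) ≠ 0 by omega) h7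
    exact_mod_cast h8.symm
  refine (h3.image hinj).mono ?_
  rintro _ ⟨n, ⟨hn, hn2⟩, rfl⟩
  have e1 := hpos n (not_lt.1 hn2)
  simp only [Set.mem_ofPred_eq]
  rw [e1]
  refine ⟨?_, fun m hm => ?_, fun g hg hp => ?_⟩
  · exact Int.modEq_iff_dvd.2 ⟨-n, by ring⟩
  · have h4 := (hn (form u v q r (pp φ Z m)) (Finset.mem_union_right _ (Finset.mem_image_of_mem _
      (Finset.mem_range.2 (by omega))))).2 ⟨m, rfl⟩
    have h5 : (form u v q r (pp φ Z m)).1 * (n : ℤ) + (form u v q r (pp φ Z m)).2 =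
        (pp φ Z m : ℤ) * (q * n + r) + ((pp φ Z m : ℤ) - 1) / v * u := by
      unfold form
      ring
    rwa [h5] at h4
  · have h5 : (g.1 * (q : ℤ)) * n + (g.2 + g.1 * r) = g.1 * (q * n + r) + g.2 := by ring
    rw [← h5] at hp
    obtain ⟨m, hm⟩ := (hn (g.1 * q, g.2 + g.1 * r) (Finset.mem_union_left _
      (Finset.mem_image_of_mem _ hg))).1 hp
    unfold form at hm
    simp only [Prod.mk.injEq] at hm
    have h6 : (pp φ Z m : ℤ) = g.1 := mul_right_cancel₀ (show (q : ℤ) ≠ 0 by omega) hm.1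
    have h7 : ((pp φ Z m : ℤ) - 1) / v * u = g.2 := by
      have := hm.2
      rw [h6] at this ⊢
      linarith
    refine ⟨m, ?_, by rw [h7, h6]⟩
    by_contra hcon
    have h8 : pp φ Z (k + 1) ≤ pp φ Z m := (pp_mono hZ).monotone (by omega)
    have h9 : (pp φ Z (k + 1) : ℤ) ≤ pp φ Z m := by exact_mod_cast h8
    have := hbig g hg
    linarith

/-- **Systems of multipliers and partition regular families.** -/
theorem main_PR [AddCommMonoid G] {T : ℕ → Set G} (hT : Pool.Agent.J6H10.PR.Tails T) (𝓒 : ℕ → Set (Finset G))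
    (h𝓒 : ∀ i, Pool.Agent.J6H10.PR.Reg T (𝓒 i)) (φ : ℕ → G → ℕ) (h0 : ∀ j, φ j 0 = 1)
    (h1 : ∀ j x y, φ j (x + y) = φ j x * φ j y) (hφ : ∀ j, ∀ x ∈ T 0, 2 ≤ φ j x)
    (u : ℕ → ℤ) (v q : ℕ → ℕ) (hv : ∀ j, 1 ≤ v j) (hq : ∀ j, 1 ≤ q j) (r : ℕ → ℤ)
    (hr : ∀ j, IsCoprime (r j) (q j : ℤ)) (hcop : ∀ j x, (φ j x).Coprime (q j * v j))
    (hcopu : ∀ j x, IsCoprime (φ j x : ℤ) (u j)) :
    ∃ S : ℕ → Finset G, (∀ i, S i ∈ 𝓒 i) ∧ (∀ i, ∀ s ∈ S i, s ∈ T i) ∧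
      ∀ (j k : ℕ) (F : ℕ → Finset ℕ) (x : ℕ → G), (∀ i, x i ∈ S i) →
        (∀ l < k, (F l).Nonempty) → (∀ l < k, ∀ i ∈ F l, j ≤ i) →
        (∀ l, l + 1 < k → ∀ i ∈ F l, ∀ i' ∈ F (l + 1), i < i') →
        ∀ U : Finset (ℤ × ℤ), (∀ g ∈ U, 1 ≤ g.1) →
          {n : ℕ | (n : ℤ) ≡ r j [ZMOD q j] ∧
            (∀ m ≤ k, Nat.Prime (((∏ l ∈ Finset.range m, ∏ i ∈ F l, φ j (x i) : ℕ) : ℤ) * n +
              (((∏ l ∈ Finset.range m, ∏ i ∈ F l, φ j (x i) : ℕ) : ℤ) - 1) / v j * u j).toNat) ∧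
            ∀ g ∈ U, Nat.Prime (g.1 * n + g.2).toNat → ∃ m ≤ k,
              g = (((∏ l ∈ Finset.range m, ∏ i ∈ F l, φ j (x i) : ℕ) : ℤ),
                (((∏ l ∈ Finset.range m, ∏ i ∈ F l, φ j (x i) : ℕ) : ℤ) - 1) / v j * u j)}.Infinite := by
  classical
  obtain ⟨S, hS1, hS2, hg⟩ := Pool.Agent.J6H10.PR.closed_sets hT 𝓒 h𝓒
    (fun j => goodM (φ j) (u j) (v j) (q j) (r j))
    (fun j Z hZ hg => goodM_closed (hφ j) (u j) (v j) (q j) (hq j) (r j) Z hZ hg)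
    (fun j X hX hXs => by
      have hX0 : ∀ i, 2 ≤ φ j (X i) := fun i => hφ j _ (by
        have := hXs {i} (Finset.singleton_nonempty i)
        rwa [Finset.sum_singleton] at this)
      have hblk : Blk (fun i => ({i} : Finset ℕ)) := by
        refine ⟨fun i => Finset.singleton_nonempty i, fun i x hx y hy => ?_⟩
        rw [Finset.mem_singleton] at hx hy
        omega
      obtain ⟨C, hC, -, -, hE⟩ := good_exists (e := fun a => φ j (X a)) (u := u j) (v := v j) (q := q j)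
        (r := r j) ⟨hv j, hq j, hr j, hX0, fun a => hcop j _, fun a => hcopu j _⟩ _ hblk
      refine ⟨C, hC, ?_⟩
      have hpp : ∀ m, pp (φ j) (fun l => ∑ i ∈ C l, X i) m = prd (fun a => φ j (X a)) C m := by
        intro m
        unfold pp prd
        exact Finset.prod_congr rfl fun l _ => hom_sum (h0 j) (h1 j) _ _
      unfold goodM
      simp only [hpp]
      exact hE)
  refine ⟨S, hS1, hS2, fun j k F x hx hF1 hF2 hF3 U hU => ?_⟩
  obtain ⟨R, hR⟩ : ∃ R : ℕ, ∀ g ∈ U, g.1 < R := by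
    refine ⟨(U.sup fun f => (f.1).toNat) + 1, fun f hf => ?_⟩
    have h1 : (f.1).toNat ≤ U.sup fun f => (f.1).toNat :=
      Finset.le_sup (f := fun f : ℤ × ℤ => (f.1).toNat) hf
    have h2 := Int.self_le_toNat (f.1)
    have h3 : ((f.1).toNat : ℤ) ≤ ((U.sup fun f => (f.1).toNat : ℕ) : ℤ) := by
      exact_mod_cast h1
    push_cast
    linarith
  obtain ⟨G', hG1, hG2, hG3, hG4⟩ := Pool.Agent.W68.Gap.extend j k F hF1 hF2 hF3 R
  have hx0 : ∀ i, x i ∈ T 0 := fun i => hT.anti (Nat.zero_le i) (hS2 i _ (hx i))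
  have hx1 : ∀ i, 2 ≤ φ j (x i) := fun i => hφ j _ (hx0 i)
  set Z : ℕ → G := fun l => ∑ i ∈ G' l, x i with hZ
  have hgood : goodM (φ j) (u j) (v j) (q j) (r j) Z := hg j G' x hG1 (hG3 0) hx
  have hsum : ∀ l, φ j (Z l) = ∏ i ∈ G' l, φ j (x i) := fun l => hom_sum (h0 j) (h1 j) _ _
  have hcard : ∀ l, (G' l).card < φ j (Z l) := by
    intro l
    rw [hsum]
    calc (G' l).card < 2 ^ (G' l).card := Nat.lt_two_pow_self
      _ = ∏ _i ∈ G' l, 2 := by simp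
      _ ≤ _ := Finset.prod_le_prod' fun i _ => hx1 i
  have hZ1 : ∀ l, 2 ≤ φ j (Z l) := by
    intro l
    have h2 : 1 ≤ (G' l).card := Finset.card_pos.2 (hG1.1 l)
    have := hcard l
    omega
  have hp : ∀ m ≤ k, pp (φ j) Z m = ∏ l ∈ Finset.range m, ∏ i ∈ F l, φ j (x i) := by
    intro m hm
    unfold pp
    refine Finset.prod_congr rfl fun l hl => ?_
    rw [hsum, hG2 l (by have := Finset.mem_range.1 hl; omega)]
  have hbig : ∀ g ∈ U, g.1 < pp (φ j) Z (k + 1) := by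
    intro g hg
    have h5 := hR g hg
    have h6 : R < pp (φ j) Z (k + 1) := by
      rw [pp_succ]
      have h7 := hcard k
      have h8 := lt_pp hZ1 k
      nlinarith
    have h9 : (R : ℤ) < pp (φ j) Z (k + 1) := by exact_mod_cast h6
    linarith
  refine (window (hq j) hZ1 hgood k U hU hbig).mono ?_
  rintro n ⟨hn1, hn2, hn3⟩
  refine ⟨hn1, fun m hm => ?_, fun g hg hpg => ?_⟩
  · rw [← hp m hm]
    exact hn2 m hm
  · obtain ⟨m, hm, h6⟩ := hn3 g hg hpg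
    exact ⟨m, hm, by rw [← hp m hm]; exact h6⟩

end Pool.Agent.J6H10.MU
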